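import Pool.Agent.Run7.h891.WqoPage

/-! Q1 of MP_299ee7_co (are there continuum many countable graphs, no two of them minor-twins?) for
rayless graphs. The definitions are in `Pool/Agent/Run7/h891/Defs.lean`, `Defs2.lean`,
`Defs3.lean`. -/

set_option autoImplicit false

open Ordinal Cardinal

namespace Pool.Agent.Results.MP_299ee7_co.CountableOrPerfect

open Run7.h891

/-- A positive answer to Q1: continuum many graphs with vertex set `ℕ`, no two of them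
minor-twins. -/
def Q1 : Prop := ∃ C : Set (SimpleGraph ℕ), #C = 𝔠 ∧
  ∀ G ∈ C, ∀ H ∈ C, G ≠ H → ¬ (IsMinor G H ∧ IsMinor H G)

theorem q1_of_antichain {Φ : (ℕ → Bool) → SimpleGraph ℕ}
    (h : ∀ t t', t ≠ t' → ¬ IsMinor (Φ t) (Φ t')) : Q1 := by
  have hinj : Function.Injective Φ := by
    intro t t' htt
    by_contra hne
    refine h t t' hne ?_
    rw [htt]
    exact isMinor_iff.2 (Minor.refl _ _)
  refine ⟨Set.range Φ, ?_, ?_⟩
  · rw [mk_range_eq Φ hinj]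
    exact card_cantor
  · rintro _ ⟨t, rfl⟩ _ ⟨t', rfl⟩ hne ⟨hm, _⟩
    exact h t t' (fun h' => hne (h' ▸ rfl)) hm

theorem result :
    (∀ α < ω₁, CountablyManyTwinClasses α ∨
      ∃ Φ : (ℕ → Bool) → SimpleGraph ℕ, @Continuous _ _ _ graphTopology Φ ∧
        (∀ t, HasRankLE α (Φ t)) ∧ ∀ t t', t ≠ t' → ¬ IsMinor (Φ t) (Φ t')) ∧
    ((∃ Φ : (ℕ → Bool) → SimpleGraph ℕ, @Continuous _ _ _ graphTopology Φ ∧
        (∀ t, Rayless (Φ t)) ∧
        ∀ t t', t ≠ t' → ¬ (IsMinor (Φ t) (Φ t') ∧ IsMinor (Φ t') (Φ t))) ↔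
      ¬ WellQuasiOrdered MinorLE) ∧
    (¬ Q1 → BetterQuasiOrdered MinorLE ∧ ∀ α < ω₁, CountablyManyTwinClasses α) := by
  have hw := wqo_tfae
  refine ⟨fun α hα => ?_, ?_, fun h => ?_⟩
  · by_cases h : CountablyManyTwinClasses α
    · exact Or.inl h
    · exact Or.inr (((perfect_tfae hα).out 1 2).1 h)
  · have h1 := hw.out 0 6
    rw [h1, not_not]
  · have h6 : ¬ ∃ Φ : (ℕ → Bool) → SimpleGraph ℕ, @Continuous _ _ _ graphTopology Φ ∧
        (∀ t, Rayless (Φ t)) ∧ ∀ t t', t ≠ t' → ¬ IsMinor (Φ t) (Φ t') := by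
      rintro ⟨Φ, _, _, h3⟩
      exact h (q1_of_antichain h3)
    exact ⟨(hw.out 5 1).1 h6, (hw.out 5 3).1 h6⟩

end Pool.Agent.Results.MP_299ee7_co.CountableOrPerfect
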